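import Pool.Agent.Lib.helper5.Adic3

open Module

namespace Pool.Agent.Results.MP_cc6759_lc.Half

/-- Size in case (i): for the basis `1, π` this is `log_N (u^2 + N v^2)`. -/
noncomputable def phi1 {R : Type} [CommRing R] (N : ℕ) (pb : PowerBasis ℤ R) (x : R) : ℝ :=
  Real.logb N (∑ i : Fin pb.dim, (N : ℝ) ^ (i : ℕ) * (pb.basis.repr x i : ℝ) ^ 2)

/-- Size in case (ii): the maximum of `d log_N |u_i| + i` over `i` with `u_i ≠ 0`. -/
noncomputable def phi2 {R : Type} [CommRing R] (N : ℕ) (pb : PowerBasis ℤ R) (x : R) : ℝ :=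
  sSup {t : ℝ | ∃ i : Fin pb.dim, pb.basis.repr x i ≠ 0 ∧
    t = pb.dim * Real.logb N |(pb.basis.repr x i : ℝ)| + (i : ℕ)}

/-- Complexity of a finite sequence: least `max (φ f) (φ g)` over infinite extensions `e` whose
`π`-adic number is `f / g` with `g` invertible modulo `π`. -/
noncomputable def lam {R : Type} [CommRing R] (N : ℕ) (π : R) (φ : R → ℝ) {n : ℕ}
    (a : Fin n → Fin N) : ℝ :=
  sInf {t : ℝ | ∃ e : ℕ → Fin N, (∀ i : Fin n, e i = a i) ∧
    ∃ f g : R, IsUnit (Ideal.Quotient.mk (Ideal.span {π}) g) ∧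
      (∀ m, π ^ m ∣ f - g * ∑ i ∈ Finset.range m, ((e i : ℕ) : R) * π ^ i) ∧
      t = max (φ f) (φ g)}

/-- The average over all `N ^ n` sequences of length `n`. -/
noncomputable def Efin {R : Type} [CommRing R] (N : ℕ) (π : R) (φ : R → ℝ) (n : ℕ) : ℝ :=
  (∑ a : Fin n → Fin N, lam N π φ a) / N ^ n

lemma logb_mono {N : ℕ} (hN : 2 ≤ N) {x y : ℕ} (h : x ≤ y) : Real.logb N x ≤ Real.logb N y := by
  have hN1 : (1 : ℝ) < N := by exact_mod_cast (by omega : 1 < N)
  rcases Nat.eq_zero_or_pos x with rfl | hx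
  · rcases Nat.eq_zero_or_pos y with rfl | hy
    · rfl
    · simpa using Real.logb_nonneg hN1 (by exact_mod_cast hy : (1 : ℝ) ≤ y)
  · exact Real.logb_le_logb_of_le hN1 (by exact_mod_cast hx) (by exact_mod_cast h)

lemma gen {R : Type} [CommRing R] [IsDomain R] (N : ℕ) (hN : 2 ≤ N) (pb : PowerBasis ℤ R) (w : ℤ)
    (hw : pb.gen ^ pb.dim = (w : R)) (h1 : w ∣ N) (h2 : (N : ℤ) ∣ w) (φ : R → ℝ) (K : ℝ)
    (hφ : ∀ x, |φ x - pb.dim * Real.logb N (H5Ad.nu pb.basis x)| ≤ K) :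
    ∃ C : ℝ, ∀ n : ℕ, |Efin N pb.gen φ n - n / 2| ≤ C := by
  have hd : 0 < pb.dim := pb.dim_pos
  let z : Fin pb.dim := ⟨0, hd⟩
  have hz : pb.basis z = 1 := by rw [pb.basis_eq_pow]; simp [z]
  have hint : ∀ k : ℤ, pb.basis.repr (k : R) z = k := fun k => by
    have : (k : R) = k • pb.basis z := by rw [hz]; simp
    rw [this, map_smul, Basis.repr_self]; simp
  have hdiv : ∀ x, (N : ℤ) ∣ pb.basis.repr (pb.gen * x) z := fun x => by
    rw [← pb.basis.sum_repr x, Finset.mul_sum, map_sum, Finsupp.finsetSum_apply]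
    refine Finset.dvd_sum fun i _ => ?_
    rw [mul_smul_comm, map_smul, Finsupp.smul_apply, smul_eq_mul]
    refine Dvd.dvd.mul_left ?_ _
    rw [pb.basis_eq_pow, ← pow_succ']
    by_cases hi : (i : ℕ) + 1 < pb.dim
    · have : pb.gen ^ ((i : ℕ) + 1) = pb.basis ⟨_, hi⟩ := by rw [pb.basis_eq_pow]
      rw [this, Basis.repr_self, Finsupp.single_apply, if_neg (by simp [z])]
      simp
    · have : (i : ℕ) + 1 = pb.dim := by have := i.2; omega
      rw [this, hw, hint]; exact h2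
  have hπw : pb.gen ∣ (w : R) := by rw [← hw]; exact dvd_pow_self _ hd.ne'
  have hπN : pb.gen ∣ ((N : ℤ) : R) := by
    obtain ⟨k, hk⟩ := h1
    rw [hk, Int.cast_mul]; exact hπw.mul_right _
  have hinj : ∀ c c' : Fin N, pb.gen ∣ ((c : ℕ) : R) - (c' : ℕ) → c = c' := by
    rintro c c' ⟨x, hx⟩
    have h3 := hdiv x
    rw [← hx, show ((c : ℕ) : R) - (c' : ℕ) = (((c : ℕ) - (c' : ℕ) : ℤ) : R) by push_cast; rfl, hint] at h3
    have h4 := Int.eq_zero_of_abs_lt_dvd h3 (by have := c.2; have := c'.2; rw [abs_lt]; omega)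
    exact Fin.ext (by omega)
  have hrep : ∀ r : R, ∃ c : Fin N, pb.gen ∣ r - (c : ℕ) := fun r => by
    have h3 : pb.gen ∣ r - (pb.basis.repr r z : R) := by
      conv_rhs => enter [1]; rw [← pb.basis.sum_repr r]
      rw [← Finset.add_sum_erase _ _ (Finset.mem_univ z), hz, zsmul_eq_mul, mul_one, add_sub_cancel_left]
      refine Finset.dvd_sum fun i hi => ?_
      rw [pb.basis_eq_pow, zsmul_eq_mul]
      refine (dvd_pow_self _ fun h => (Finset.mem_erase.1 hi).1 (Fin.ext h)).mul_left _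
    set u := pb.basis.repr r z
    have h4 := Int.emod_nonneg u (by omega : (N : ℤ) ≠ 0)
    have h5 := Int.emod_lt_of_pos u (by omega : (0 : ℤ) < N)
    refine ⟨⟨(u % N).toNat, by omega⟩, ?_⟩
    have h6 : (((u % N).toNat : ℕ) : R) = ((u % N : ℤ) : R) := by
      rw [← Int.cast_natCast, Int.toNat_of_nonneg h4]
    simp only [h6]
    have h7 : r - ((u % N : ℤ) : R) = (r - u) + ((N : ℤ) : R) * ((u / N : ℤ) : R) := by
      rw [Int.emod_def]; push_cast; ring
    rw [h7]; exact dvd_add h3 (hπN.mul_right _)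
  have hπ : pb.gen ≠ 0 := fun h => by
    rw [h, zero_dvd_iff] at hπN
    have := hint N
    rw [hπN] at this
    simp at this
    omega
  refine H5Ad.avg pb.gen pb.basis hN hd hπ hrep hinj
    (fun _ g => IsUnit (Ideal.Quotient.mk (Ideal.span {pb.gen}) g)) (fun f g => max (φ f) (φ g)) K
    ?_ ?_ ?_
  · rintro f g hg rfl
    rw [map_zero, isUnit_zero_iff, eq_comm, ← map_one (Ideal.Quotient.mk _),
      Ideal.Quotient.eq_zero_iff_mem, Ideal.mem_span_singleton] at hg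
    have := hinj ⟨1, by omega⟩ ⟨0, by omega⟩ (by simpa using hg)
    simp at this
  · intro f g _
    have hf := abs_le.1 (hφ f)
    have hg := abs_le.1 (hφ g)
    have hd0 : (0 : ℝ) ≤ pb.dim := Nat.cast_nonneg _
    rcases le_total (H5Ad.nu pb.basis f) (H5Ad.nu pb.basis g) with h | h
    · have := mul_le_mul_of_nonneg_left (logb_mono hN h) hd0
      rw [max_eq_right h, abs_le]
      exact ⟨by linarith [le_max_right (φ f) (φ g)], by
        rcases max_choice (φ f) (φ g) with e | e <;> rw [e] <;> linarith⟩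
    · have := mul_le_mul_of_nonneg_left (logb_mono hN h) hd0
      rw [max_eq_left h, abs_le]
      exact ⟨by linarith [le_max_left (φ f) (φ g)], by
        rcases max_choice (φ f) (φ g) with e | e <;> rw [e] <;> linarith⟩
  · intro f g hg
    refine ⟨f, g, ?_, le_rfl, le_rfl, fun _ _ h => h⟩
    have : Ideal.Quotient.mk (Ideal.span {pb.gen}) g = 1 := by
      rw [← map_one (Ideal.Quotient.mk _), Ideal.Quotient.eq, Ideal.mem_span_singleton]; exact hg
    simp only [this, isUnit_one]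

lemma attain {R : Type} [CommRing R] [Nontrivial R] (pb : PowerBasis ℤ R) (x : R) :
    ∃ i, |(pb.basis.repr x i : ℝ)| = H5Ad.nu pb.basis x := by
  obtain ⟨i, -, hi⟩ := Finset.exists_mem_eq_sup (Finset.univ : Finset (Fin pb.dim))
    ⟨⟨0, pb.dim_pos⟩, Finset.mem_univ _⟩ (fun i => (pb.basis.repr x i).natAbs)
  refine ⟨i, ?_⟩
  rw [H5Ad.nu, hi, Nat.cast_natAbs, Int.cast_abs]

lemma bound {R : Type} [CommRing R] (pb : PowerBasis ℤ R) (x : R) (i) :
    |(pb.basis.repr x i : ℝ)| ≤ H5Ad.nu pb.basis x := by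
  have := H5Ad.le_nu pb.basis x i
  rw [← Int.cast_abs, ← Nat.cast_natAbs]; exact_mod_cast this

theorem result (N : ℕ) (hN : 2 ≤ N) (R : Type) [CommRing R] [IsDomain R] (pb : PowerBasis ℤ R) :
    (pb.dim = 2 → pb.gen ^ 2 = -(N : R) →
      ∃ C : ℝ, ∀ n : ℕ, |Efin N pb.gen (phi1 N pb) n - n / 2| ≤ C) ∧
    (pb.gen ^ pb.dim = (N : R) →
      ∃ C : ℝ, ∀ n : ℕ, |Efin N pb.gen (phi2 N pb) n - n / 2| ≤ C) := by
  have hN1 : (1 : ℝ) < N := by exact_mod_cast (by omega : 1 < N)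
  constructor
  · intro hd h
    refine gen N hN pb (-N) (by rw [hd, h]; simp) (by simp) (by simp) _ (Real.logb N (2 * N)) fun x => ?_
    have hK : 0 ≤ Real.logb N (2 * N) := Real.logb_nonneg hN1 (by linarith)
    rcases eq_or_ne x 0 with rfl | hx
    · simpa [phi1, H5Ad.nu_zero] using hK
    have hν : (1 : ℝ) ≤ H5Ad.nu pb.basis x := by
      have : H5Ad.nu pb.basis x ≠ 0 := fun h => hx (H5Ad.nu_eq_zero _ h)
      exact_mod_cast Nat.one_le_iff_ne_zero.2 this
    set ν : ℝ := ((H5Ad.nu pb.basis x : ℕ) : ℝ) with hνd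
    set s := ∑ i : Fin pb.dim, (N : ℝ) ^ (i : ℕ) * (pb.basis.repr x i : ℝ) ^ 2 with hs
    have h1 : ν ^ 2 ≤ s := by
      obtain ⟨i, hi⟩ := attain pb x
      rw [hνd, ← hi, sq_abs]
      refine le_trans (le_mul_of_one_le_left (sq_nonneg _) (one_le_pow₀ (n := (i : ℕ)) hN1.le)) ?_
      exact Finset.single_le_sum (f := fun i : Fin pb.dim => (N : ℝ) ^ (i : ℕ) *
        (pb.basis.repr x i : ℝ) ^ 2) (fun i _ => by positivity) (Finset.mem_univ i)
    have h2 : s ≤ 2 * N * ν ^ 2 := by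
      calc s ≤ ∑ _i : Fin pb.dim, (N : ℝ) ^ 1 * ν ^ 2 := by
            refine Finset.sum_le_sum fun i _ => mul_le_mul
              (pow_le_pow_right₀ hN1.le (by have := i.2; omega)) ?_ (sq_nonneg _) (by positivity)
            rw [← sq_abs]; exact pow_le_pow_left₀ (abs_nonneg _) (bound pb x i) 2
        _ = _ := by simp [hd]; ring
    have h3 := Real.logb_le_logb_of_le hN1 (by positivity) h1
    have h4 := Real.logb_le_logb_of_le hN1 (lt_of_lt_of_le (by positivity) h1) h2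
    rw [Real.logb_mul (by positivity) (by positivity)] at h4
    rw [Real.logb_pow] at h3 h4
    rw [phi1, ← hs, hd, abs_le]
    constructor <;> linarith
  · intro h
    refine gen N hN pb N (by rw [h]; simp) dvd_rfl dvd_rfl _ pb.dim fun x => ?_
    have hd0 : (0 : ℝ) ≤ pb.dim := Nat.cast_nonneg _
    rcases eq_or_ne x 0 with rfl | hx
    · simp [phi2, H5Ad.nu_zero]
    have hν : (1 : ℝ) ≤ H5Ad.nu pb.basis x := by
      have : H5Ad.nu pb.basis x ≠ 0 := fun h => hx (H5Ad.nu_eq_zero _ h)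
      exact_mod_cast Nat.one_le_iff_ne_zero.2 this
    obtain ⟨i, hi⟩ := attain pb x
    have hi0 : pb.basis.repr x i ≠ 0 := fun h => by rw [h] at hi; simp at hi; linarith
    have hub : ∀ t ∈ {t : ℝ | ∃ i : Fin pb.dim, pb.basis.repr x i ≠ 0 ∧
        t = pb.dim * Real.logb N |(pb.basis.repr x i : ℝ)| + (i : ℕ)},
        t ≤ pb.dim * Real.logb N (H5Ad.nu pb.basis x) + pb.dim := by
      rintro t ⟨j, hj, rfl⟩
      have h1 := Real.logb_le_logb_of_le hN1 (abs_pos.2 (by exact_mod_cast hj)) (bound pb x j)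
      have h2 : ((j : ℕ) : ℝ) ≤ pb.dim := by exact_mod_cast j.2.le
      have := mul_le_mul_of_nonneg_left h1 hd0
      linarith
    have h1 : phi2 N pb x ≤ _ := csSup_le ⟨_, i, hi0, rfl⟩ hub
    have h2 : _ ≤ phi2 N pb x := le_csSup ⟨_, hub⟩ ⟨i, hi0, rfl⟩
    rw [hi] at h2
    have : (0 : ℝ) ≤ (i : ℕ) := Nat.cast_nonneg _
    rw [abs_le]
    constructor <;> linarith

end Pool.Agent.Results.MP_cc6759_lc.Half
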